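import Mathlib

set_option autoImplicit false

open MeasureTheory Finset

namespace Pool.Agent.H310.MG

variable {μ : Measure UnitAddCircle}

lemma norm_f (n : ℤ) (x : UnitAddCircle) : ‖(fourier n x : ℂ)‖ = 1 := by
  rw [fourier_apply]; exact Circle.norm_coe _

lemma conj_f (n : ℤ) (x : UnitAddCircle) :
    (starRingEnd ℂ) (fourier n x : ℂ) = fourier (-n) x := by
  rw [fourier_neg]

lemma fourier_nsmul (n : ℤ) (j : ℕ) (x : UnitAddCircle) :
    (fourier n (j • x) : ℂ) = fourier (n * j) x := by
  simp only [fourier_apply]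
  congr 2
  rw [mul_smul, natCast_zsmul]

/-- Invariance under the primes below `p` gives invariance under all `1 ≤ j < p`. -/
lemma mp_all {p : ℕ} (h : ∀ q : ℕ, q.Prime → q < p →
    MeasurePreserving (fun x : UnitAddCircle => q • x) μ μ) :
    ∀ j : ℕ, 1 ≤ j → j < p → MeasurePreserving (fun x : UnitAddCircle => j • x) μ μ := by
  intro j
  induction j using Nat.recOnMul with
  | zero => intro h1; omega
  | one =>
    intro _ _
    have e : (fun x : UnitAddCircle => 1 • x) = id := by funext x; simp
    rw [e]; exact MeasurePreserving.id μ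
  | prime q hq => intro _ hlt; exact h q hq hlt
  | mul a b iha ihb =>
    intro h1 hlt
    have ha : 1 ≤ a := Nat.pos_of_ne_zero (by rintro rfl; simp at h1)
    have hb : 1 ≤ b := Nat.pos_of_ne_zero (by rintro rfl; simp at h1)
    have ha' : a < p := lt_of_le_of_lt (Nat.le_mul_of_pos_right a hb) hlt
    have hb' : b < p := lt_of_le_of_lt (Nat.le_mul_of_pos_left b ha) hlt
    have := (iha ha ha').comp (ihb hb hb')
    have e : (fun x : UnitAddCircle => (a * b) • x) =
        (fun x : UnitAddCircle => a • x) ∘ fun x : UnitAddCircle => b • x := by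
      funext x; simp [mul_smul]
    rw [e]; exact this

/-- The Fourier coefficient `∫ e(n x) dμ`. -/
noncomputable def co (μ : Measure UnitAddCircle) (n : ℤ) : ℂ := ∫ x, (fourier n x : ℂ) ∂μ

lemma co_mul {p : ℕ} (h : ∀ j : ℕ, 1 ≤ j → j < p →
    MeasurePreserving (fun x : UnitAddCircle => j • x) μ μ) (n : ℤ) (j : ℕ) (h1 : 1 ≤ j)
    (h2 : j < p) : co μ (n * j) = co μ n := by
  have hm := h j h1 h2
  have : ∫ x, (fourier n x : ℂ) ∂μ = ∫ x, (fourier n (j • x) : ℂ) ∂μ := by
    conv_lhs => rw [← hm.map_eq]
    rw [integral_map hm.measurable.aemeasurable]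
    exact (fourier n).continuous.aestronglyMeasurable
  rw [co, co, this]
  simp only [fourier_nsmul]

lemma co_neg (n : ℤ) : co μ (-n) = (starRingEnd ℂ) (co μ n) := by
  rw [co, co, ← integral_conj]
  simp only [conj_f]

lemma co_zero [IsProbabilityMeasure μ] : co μ 0 = 1 := by
  simp [co]

lemma int_f [IsProbabilityMeasure μ] (n : ℤ) :
    Integrable (fun x => (fourier n x : ℂ)) μ :=
  (integrable_const (1 : ℝ)).mono' (fourier n).continuous.aestronglyMeasurable
    (Filter.Eventually.of_forall fun x => by rw [norm_f])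

end Pool.Agent.H310.MG
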