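import Pool.Agent.H310.MG.A

set_option autoImplicit false

open MeasureTheory Finset

namespace Pool.Agent.H310.MG

variable {μ : Measure UnitAddCircle}

lemma herm_sum (t : ℕ → ℕ → ℂ) (ht : ∀ j l, t l j = (starRingEnd ℂ) (t j l)) (m : ℕ) :
    (∑ j ∈ range m, ∑ l ∈ range m, t j l).re =
      ∑ j ∈ range m, ((t j j).re + 2 * (∑ l ∈ range j, t j l).re) := by
  induction m with
  | zero => simp
  | succ m ih =>
    rw [sum_range_succ (fun j => (t j j).re + _), ← ih, sum_range_succ]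
    have : ∑ j ∈ range m, ∑ l ∈ range (m + 1), t j l =
        ∑ j ∈ range m, ∑ l ∈ range m, t j l + ∑ j ∈ range m, t j m := by
      rw [← sum_add_distrib]
      exact sum_congr rfl fun j _ => sum_range_succ _ _
    rw [this, sum_range_succ]
    have h2 : ∑ j ∈ range m, t j m = (starRingEnd ℂ) (∑ j ∈ range m, t m j) := by
      rw [map_sum]
      exact sum_congr rfl fun j _ => ht m j
    rw [h2]
    simp only [Complex.add_re, Complex.conj_re]
    ring

/-- The test polynomial. -/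
noncomputable def S (p : ℕ) (n : ℤ) (ω : ℂ) (x : UnitAddCircle) : ℂ :=
  ∑ j ∈ range p, ω ^ j * (fourier (n * j) x : ℂ)

lemma normSq_S (p : ℕ) (n : ℤ) (ω : ℂ) (x : UnitAddCircle) :
    ((‖S p n ω x‖ ^ 2 : ℝ) : ℂ) = ∑ j ∈ range p, ∑ l ∈ range p,
      (ω ^ j * (starRingEnd ℂ) (ω ^ l)) * (fourier (n * j - n * l) x : ℂ) := by
  have : ((‖S p n ω x‖ ^ 2 : ℝ) : ℂ) = S p n ω x * (starRingEnd ℂ) (S p n ω x) := by
    rw [Complex.mul_conj]; push_cast; rw [Complex.normSq_eq_norm_sq]; push_cast; ring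
  rw [this, S, map_sum, sum_mul_sum]
  refine sum_congr rfl fun j _ => sum_congr rfl fun l _ => ?_
  rw [map_mul, conj_f, sub_eq_add_neg, fourier_add]
  ring

lemma int_S [IsProbabilityMeasure μ] (p : ℕ) (n : ℤ) (ω : ℂ) :
    ((∫ x, ‖S p n ω x‖ ^ 2 ∂μ : ℝ) : ℂ) = ∑ j ∈ range p, ∑ l ∈ range p,
      (ω ^ j * (starRingEnd ℂ) (ω ^ l)) * co μ (n * j - n * l) := by
  rw [← integral_complex_ofReal]
  have : (fun x => (((‖S p n ω x‖ ^ 2 : ℝ)) : ℂ)) = fun x => ∑ j ∈ range p, ∑ l ∈ range p,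
      (ω ^ j * (starRingEnd ℂ) (ω ^ l)) * (fourier (n * j - n * l) x : ℂ) := by
    funext x; exact normSq_S p n ω x
  rw [this, integral_finsetSum]
  · refine sum_congr rfl fun j _ => ?_
    rw [integral_finsetSum]
    · refine sum_congr rfl fun l _ => ?_
      rw [integral_const_mul]; rfl
    · intro l _
      exact (int_f _).const_mul _
  · intro j _
    exact integrable_finsetSum _ fun l _ => (int_f _).const_mul _

lemma cont_S (p : ℕ) (n : ℤ) (ω : ℂ) : Continuous (S p n ω) := by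
  unfold S
  fun_prop

/-- The value of the quadratic form. -/
lemma form [IsProbabilityMeasure μ] {p : ℕ} (h : ∀ j : ℕ, 1 ≤ j → j < p →
    MeasurePreserving (fun x : UnitAddCircle => j • x) μ μ) (n : ℤ) {ω : ℂ} (hω : ‖ω‖ = 1) :
    ∫ x, ‖S p n ω x‖ ^ 2 ∂μ = p + 2 * (co μ n * ∑ j ∈ range p, ∑ l ∈ range j,
      ω ^ j * (starRingEnd ℂ) (ω ^ l)).re := by
  have h1 := congrArg Complex.re (int_S (μ := μ) p n ω)
  rw [Complex.ofReal_re, herm_sum] at h1
  · rw [h1, sum_add_distrib]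
    have e1 : ∑ j ∈ range p, ((ω ^ j * (starRingEnd ℂ) (ω ^ j)) * co μ (n * j - n * j)).re = p := by
      have : ∀ j ∈ range p, ((ω ^ j * (starRingEnd ℂ) (ω ^ j)) * co μ (n * j - n * j)).re = 1 := by
        intro j _
        rw [sub_self, co_zero, Complex.mul_conj, Complex.normSq_eq_norm_sq, norm_pow, hω]
        simp
      rw [sum_congr rfl this]; simp
    rw [e1, ← mul_sum, ← Complex.re_sum, mul_sum]
    congr 3
    refine sum_congr rfl fun j hj => ?_
    rw [mul_sum]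
    refine sum_congr rfl fun l hl => ?_
    rw [mem_range] at hj hl
    have : n * (j : ℤ) - n * l = n * ((j - l : ℕ) : ℤ) := by
      rw [Nat.cast_sub hl.le]; ring
    rw [this, co_mul h n (j - l) (by omega) (by omega)]
    ring
  · intro j l
    rw [map_mul, map_mul, ← co_neg, Complex.conj_conj]
    congr 1
    · ring
    · congr 1; ring

lemma geom {p : ℕ} {ω : ℂ} (hω : ‖ω‖ = 1) (h1 : ω ^ p = 1) (h2 : ω ≠ 1) :
    ∑ j ∈ range p, ∑ l ∈ range j, ω ^ j * (starRingEnd ℂ) (ω ^ l) = p * (ω / (1 - ω)) := by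
  have h0 : ω ≠ 0 := by rintro rfl; simp at hω
  have hc : (starRingEnd ℂ) ω = ω⁻¹ := by
    rw [Complex.inv_def, Complex.normSq_eq_norm_sq, hω]; simp
  have h3 : (1 : ℂ) - ω ≠ 0 := sub_ne_zero.2 (Ne.symm h2)
  have h4 : ω - 1 ≠ 0 := sub_ne_zero.2 h2
  have key : ∀ j : ℕ, ∑ l ∈ range j, ω ^ j * (starRingEnd ℂ) (ω ^ l) =
      ω / (1 - ω) - ω / (1 - ω) * ω ^ j := by
    intro j
    induction j with
    | zero => simp
    | succ j ih =>
      have : ∑ l ∈ range (j + 1), ω ^ (j + 1) * (starRingEnd ℂ) (ω ^ l) =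
          ω * ∑ l ∈ range j, ω ^ j * (starRingEnd ℂ) (ω ^ l) + ω := by
        rw [sum_range_succ, mul_sum]
        congr 1
        · exact sum_congr rfl fun l _ => by ring
        · rw [map_pow, hc, inv_pow, pow_succ]; field_simp
      rw [this, ih, pow_succ]
      field_simp
      ring
  rw [sum_congr rfl fun j _ => key j, sum_sub_distrib, ← mul_sum, geom_sum_eq h2, h1]
  simp

lemma geom_one (p : ℕ) :
    ∑ j ∈ range p, ∑ l ∈ range j, (1 : ℂ) ^ j * (starRingEnd ℂ) ((1 : ℂ) ^ l) =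
      (((p : ℝ) * (p - 1) / 2 : ℝ) : ℂ) := by
  induction p with
  | zero => simp
  | succ p ih =>
    rw [sum_range_succ, ih]
    simp
    ring

end Pool.Agent.H310.MG
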