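import Pool.Agent.H310.MG.B

set_option autoImplicit false

open MeasureTheory Finset

namespace Pool.Agent.H310.MG

variable {μ : Measure UnitAddCircle}

lemma re_form [IsProbabilityMeasure μ] {p : ℕ} (h : ∀ j : ℕ, 1 ≤ j → j < p →
    MeasurePreserving (fun x : UnitAddCircle => j • x) μ μ) (n : ℤ) :
    ∫ x, ‖S p n 1 x‖ ^ 2 ∂μ = p * (1 + ((p : ℝ) - 1) * (co μ n).re) := by
  rw [form h n (by simp), geom_one, Complex.re_mul_ofReal]
  ring

lemma int_nonneg (p : ℕ) (n : ℤ) (ω : ℂ) : 0 ≤ ∫ x, ‖S p n ω x‖ ^ 2 ∂μ :=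
  integral_nonneg fun x => by positivity

lemma re_lower [IsProbabilityMeasure μ] {p : ℕ} (hp : 2 ≤ p) (h : ∀ j : ℕ, 1 ≤ j → j < p →
    MeasurePreserving (fun x : UnitAddCircle => j • x) μ μ) (n : ℤ) :
    -1 / ((p : ℝ) - 1) ≤ (co μ n).re := by
  have h1 := re_form h n
  have h2 := int_nonneg (μ := μ) p n 1
  rw [h1] at h2
  have hp' : (2 : ℝ) ≤ p := by exact_mod_cast hp
  have h3 : 0 ≤ 1 + ((p : ℝ) - 1) * (co μ n).re := by
    by_contra hc
    push Not at hc
    have : (p : ℝ) * (1 + ((p : ℝ) - 1) * (co μ n).re) < 0 := mul_neg_of_pos_of_neg (by linarith) hc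
    linarith
  rw [div_le_iff₀ (by linarith)]
  linarith

lemma S_one (p : ℕ) (n : ℕ) (x : UnitAddCircle) :
    S p n 1 x = ∑ j ∈ range p, ((AddCircle.toCircle (n • x) : Circle) : ℂ) ^ j := by
  rw [S]
  refine sum_congr rfl fun j _ => ?_
  rw [one_pow, one_mul, ← fourier_nsmul, fourier_apply, natCast_zsmul, smul_comm,
    AddCircle.toCircle_nsmul]
  simp

lemma S_one_eq_zero {p : ℕ} (hp : 2 ≤ p) (n : ℕ) (x : UnitAddCircle) :
    S p n 1 x = 0 ↔ p • (n • x) = 0 ∧ n • x ≠ 0 := by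
  rw [S_one]
  set y := n • x
  have e1 : y = 0 ↔ ((AddCircle.toCircle y : Circle) : ℂ) = 1 := by
    constructor
    · rintro h; rw [h]; simp
    · intro h
      have : AddCircle.toCircle y = AddCircle.toCircle (0 : UnitAddCircle) := by
        apply Subtype.ext
        simpa using h
      exact AddCircle.injective_toCircle one_ne_zero this
  have e2 : p • y = 0 ↔ ((AddCircle.toCircle y : Circle) : ℂ) ^ p = 1 := by
    constructor
    · intro h
      have : AddCircle.toCircle (p • y) = 1 := by rw [h]; simp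
      rw [AddCircle.toCircle_nsmul] at this
      have h2 := congrArg (fun z : Circle => (z : ℂ)) this
      simpa using h2
    · intro h
      have : AddCircle.toCircle (p • y) = AddCircle.toCircle (0 : UnitAddCircle) := by
        rw [AddCircle.toCircle_nsmul]
        apply Subtype.ext
        simpa using h
      exact AddCircle.injective_toCircle one_ne_zero this
  rw [e2, Ne, e1]
  set z : ℂ := ((AddCircle.toCircle y : Circle) : ℂ)
  constructor
  · intro h
    have hz : z ≠ 1 := by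
      intro hz
      rw [hz] at h
      simp at h
      omega
    refine ⟨?_, hz⟩
    have := mul_neg_geom_sum z p
    rw [h, mul_zero] at this
    exact (sub_eq_zero.1 this.symm).symm
  · rintro ⟨h1, h2⟩
    rw [geom_sum_eq h2, h1]; simp

lemma re_eq_iff [IsProbabilityMeasure μ] {p : ℕ} (hp : 2 ≤ p) (h : ∀ j : ℕ, 1 ≤ j → j < p →
    MeasurePreserving (fun x : UnitAddCircle => j • x) μ μ) (n : ℕ) :
    (co μ n).re = -1 / ((p : ℝ) - 1) ↔ ∀ᵐ x ∂μ, p • (n • x) = 0 ∧ n • x ≠ 0 := by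
  have h1 := re_form h n
  have hp' : (2 : ℝ) ≤ p := by exact_mod_cast hp
  have hint : Integrable (fun x => ‖S p n 1 x‖ ^ 2) μ := by
    refine (integrable_const ((p : ℝ) ^ 2)).mono'
      ((cont_S p n 1).norm.pow 2).aestronglyMeasurable (Filter.Eventually.of_forall fun x => ?_)
    have : ‖S p n 1 x‖ ≤ p := by
      refine (norm_sum_le _ _).trans ?_
      have : ∀ j ∈ range p, ‖(1 : ℂ) ^ j * (fourier ((n : ℤ) * j) x : ℂ)‖ = 1 := by
        intro j _; rw [norm_mul, norm_f]; simp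
      rw [sum_congr rfl this]; simp
    rw [Real.norm_eq_abs, abs_of_nonneg (by positivity)]
    gcongr
  have h3 : (co μ n).re = -1 / ((p : ℝ) - 1) ↔ ∫ x, ‖S p n 1 x‖ ^ 2 ∂μ = 0 := by
    rw [h1, eq_div_iff (by linarith : (p : ℝ) - 1 ≠ 0 ).symm.symm]
    constructor
    · intro h4
      have : 1 + ((p : ℝ) - 1) * (co μ n).re = 0 := by linarith
      rw [this, mul_zero]
    · intro h4
      rcases mul_eq_zero.1 h4 with h5 | h5
      · linarith
      · linarith
  rw [h3, integral_eq_zero_iff_of_nonneg (fun x => by positivity) hint]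
  refine ⟨fun h4 => ?_, fun h4 => ?_⟩
  · filter_upwards [h4] with x hx
    have : S p n 1 x = 0 := by simpa using hx
    exact (S_one_eq_zero hp n x).1 this
  · filter_upwards [h4] with x hx
    have := (S_one_eq_zero hp n x).2 hx
    simp [this]

lemma alg1 (c s σ : ℝ) (h : c ^ 2 + s ^ 2 = 1) (hσ : σ ^ 2 = 1) :
    (1 : ℂ) - ((c : ℂ) + ((σ * s : ℝ) : ℂ) * Complex.I) ^ 2 =
      -2 * Complex.I * ((σ * s : ℝ) : ℂ) * ((c : ℂ) + ((σ * s : ℝ) : ℂ) * Complex.I) := by
  have h1 : (c : ℂ) ^ 2 + (s : ℂ) ^ 2 = 1 := by exact_mod_cast h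
  have h2 : (σ : ℂ) ^ 2 = 1 := by exact_mod_cast hσ
  have hI : Complex.I ^ 2 = -1 := Complex.I_sq
  push_cast
  linear_combination (-1 : ℂ) * h1 - (s : ℂ) ^ 2 * h2 + ((σ : ℂ) ^ 2 * (s : ℂ) ^ 2) * hI

lemma alg2 (c s σ : ℝ) (h : c ^ 2 + s ^ 2 = 1) (hσ : σ ^ 2 = 1) (hs : s ≠ 0) :
    ((c : ℂ) + ((σ * s : ℝ) : ℂ) * Complex.I) ^ 2 /
      (1 - ((c : ℂ) + ((σ * s : ℝ) : ℂ) * Complex.I) ^ 2) =
      -1 / 2 + ((c / s * σ / 2 : ℝ) : ℂ) * Complex.I := by
  have hI : Complex.I ^ 2 = -1 := Complex.I_sq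
  have h2 : (σ : ℂ) ^ 2 = 1 := by exact_mod_cast hσ
  have hσ0 : σ ≠ 0 := by rintro rfl; norm_num at hσ
  have hs' : (s : ℂ) ≠ 0 := by exact_mod_cast hs
  have hσ' : (σ : ℂ) ≠ 0 := by exact_mod_cast hσ0
  have hu : ((c : ℂ) + ((σ * s : ℝ) : ℂ) * Complex.I) ≠ 0 := by
    intro h0
    have h3 := congrArg Complex.im h0
    simp at h3
    tauto
  rw [alg1 c s σ h hσ]
  rw [div_eq_iff (by
    refine mul_ne_zero (mul_ne_zero (mul_ne_zero (by norm_num) Complex.I_ne_zero) ?_) hu
    push_cast; exact mul_ne_zero hσ' hs')]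
  rw [pow_two, ← mul_assoc]
  congr 1
  push_cast
  field_simp
  linear_combination (-(c : ℂ)) * h2 + ((σ : ℂ)^2 * c) * hI

lemma alg3 (a : ℂ) (p r : ℝ) :
    (a * ((p : ℂ) * (-1 / 2 + (r : ℂ) * Complex.I))).re = p * (-a.re / 2 - a.im * r) := by
  have : (p : ℂ) * (-1 / 2 + (r : ℂ) * Complex.I) = ((-p / 2 : ℝ) : ℂ) + ((p * r : ℝ) : ℂ) * Complex.I := by
    push_cast; ring
  rw [this]
  simp only [Complex.mul_re, Complex.add_re, Complex.add_im, Complex.ofReal_re, Complex.ofReal_im,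
    Complex.I_re, Complex.I_im, Complex.mul_im]
  ring

lemma im_bound [IsProbabilityMeasure μ] {p : ℕ} (hp : 3 ≤ p) (h : ∀ j : ℕ, 1 ≤ j → j < p →
    MeasurePreserving (fun x : UnitAddCircle => j • x) μ μ) (n : ℤ) :
    |(co μ n).im| ≤ (1 - (co μ n).re) * Real.tan (Real.pi / p) := by
  have hp' : (3 : ℝ) ≤ p := by exact_mod_cast hp
  have hpi := Real.pi_pos
  set t : ℝ := Real.pi / p with ht
  have ht0 : 0 < t := by positivity
  have ht1 : t ≤ Real.pi / 3 := by rw [ht]; gcongr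
  have hs : 0 < Real.sin t := Real.sin_pos_of_pos_of_lt_pi ht0 (by linarith)
  have hc : 0 < Real.cos t := Real.cos_pos_of_mem_Ioo ⟨by linarith, by linarith⟩
  have hcs : Real.cos t ^ 2 + Real.sin t ^ 2 = 1 := Real.cos_sq_add_sin_sq t
  -- the general inequality
  have key : ∀ σ : ℝ, σ = 1 ∨ σ = -1 →
      0 ≤ 1 - (co μ n).re - σ * (co μ n).im * (Real.cos t / Real.sin t) := by
    intro σ hσ
    have hσ2 : σ ^ 2 = 1 := by rcases hσ with rfl | rfl <;> norm_num
    set u : ℂ := Real.cos t + (σ * Real.sin t : ℝ) * Complex.I with hu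
    have hun : ‖u‖ = 1 := by
      have : ‖u‖ ^ 2 = 1 := by
        rw [← Complex.normSq_eq_norm_sq, hu, Complex.normSq_add_mul_I]
        nlinarith
      nlinarith [norm_nonneg u]
    have hu0 : u ≠ 0 := by rintro h0; rw [h0] at hun; simp at hun
    have hupow : (u ^ 2) ^ p = 1 := by
      have : u = Complex.exp ((σ * t : ℝ) * Complex.I) := by
        rw [Complex.exp_mul_I, ← Complex.ofReal_cos, ← Complex.ofReal_sin, hu]
        rcases hσ with rfl | rfl <;> simp
      rw [this, ← pow_mul, ← Complex.exp_nat_mul]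
      have e : ((2 * p : ℕ) : ℂ) * (((σ * t : ℝ) : ℂ) * Complex.I) =
          σ * (2 * Real.pi * Complex.I) := by
        rw [ht]; push_cast
        have : (p : ℂ) ≠ 0 := by exact_mod_cast (by omega : p ≠ 0)
        field_simp
      rw [e]
      rcases hσ with rfl | rfl
      · simp
      · rw [show ((-1 : ℝ) : ℂ) * (2 * Real.pi * Complex.I) = -(2 * Real.pi * Complex.I) by
          push_cast; ring, Complex.exp_neg]
        simp
    have h1u : (1 : ℂ) - u ^ 2 = -2 * Complex.I * (σ * Real.sin t : ℝ) * u :=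
      alg1 (Real.cos t) (Real.sin t) σ hcs hσ2
    have hs' : ((σ * Real.sin t : ℝ) : ℂ) ≠ 0 := by
      have : σ * Real.sin t ≠ 0 := mul_ne_zero (by rintro h0; rw [h0] at hσ2; norm_num at hσ2) hs.ne'
      exact_mod_cast this
    have hne : u ^ 2 ≠ 1 := by
      intro h0
      rw [h0, sub_self] at h1u
      have := mul_ne_zero (mul_ne_zero (mul_ne_zero (by norm_num : (-2 : ℂ) ≠ 0) Complex.I_ne_zero) hs') hu0
      exact this h1u.symm
    have hq := alg2 (Real.cos t) (Real.sin t) σ hcs hσ2 hs.ne'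
    rw [← hu] at hq
    have h2 := form (μ := μ) h n (ω := u ^ 2) (by rw [norm_pow, hun]; norm_num)
    rw [geom (by rw [norm_pow, hun]; norm_num) hupow hne, hq] at h2
    have h3 := int_nonneg (μ := μ) p n (u ^ 2)
    rw [h2] at h3
    have e3 := alg3 (co μ n) p (Real.cos t / Real.sin t * σ / 2)
    rw [Complex.ofReal_natCast] at e3
    rw [e3] at h3
    by_contra hcon
    push Not at hcon
    nlinarith
  have k1 := key 1 (Or.inl rfl)
  have k2 := key (-1) (Or.inr rfl)
  have hcot : Real.cos t / Real.sin t = (Real.tan t)⁻¹ := by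
    rw [Real.tan_eq_sin_div_cos, inv_div]
  have htan : 0 < Real.tan t := by rw [Real.tan_eq_sin_div_cos]; positivity
  rw [hcot] at k1 k2
  rw [abs_le]
  constructor
  · have : -(co μ n).im * (Real.tan t)⁻¹ ≤ 1 - (co μ n).re := by linarith
    rw [← div_eq_mul_inv, div_le_iff₀ htan] at this
    linarith
  · have : (co μ n).im * (Real.tan t)⁻¹ ≤ 1 - (co μ n).re := by linarith
    rw [← div_eq_mul_inv, div_le_iff₀ htan] at this
    linarith

end Pool.Agent.H310.MG
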