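import Pool.Agent.H310.MG.C

set_option autoImplicit false

open MeasureTheory Finset

namespace Pool.Agent.H310.MG

lemma prob_vol : IsProbabilityMeasure (volume : Measure UnitAddCircle) :=
  ⟨UnitAddCircle.measure_univ⟩

lemma int_fourier (k : ℤ) : ∫ x : UnitAddCircle, (fourier k x : ℂ) = if k = 0 then 1 else 0 := by
  split_ifs with hk
  · subst hk
    have := prob_vol
    simp
  · have h1 : ∫ x : UnitAddCircle, (fourier k (x + ((1 / 2 / (k : ℝ) : ℝ) : UnitAddCircle)) : ℂ) =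
        ∫ x : UnitAddCircle, (fourier k x : ℂ) :=
      integral_add_right_eq_self (fun x : UnitAddCircle => (fourier k x : ℂ)) _
    have h2 : ∀ x : UnitAddCircle,
        (fourier k (x + ((1 / 2 / (k : ℝ) : ℝ) : UnitAddCircle)) : ℂ) = -fourier k x := fun x =>
      fourier_add_half_inv_index hk one_pos x
    simp only [h2, integral_neg] at h1
    have : (2 : ℂ) * ∫ x : UnitAddCircle, (fourier k x : ℂ) = 0 := by
      linear_combination -h1
    rcases mul_eq_zero.1 this with h | h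
    · norm_num at h
    · exact h

/-- Polynomials with real weights. -/
noncomputable def P (w : ℕ → ℝ) (N : ℕ) (x : UnitAddCircle) : ℂ :=
  ∑ s ∈ range N, (w s : ℂ) * (fourier (s : ℤ) x : ℂ)

lemma cont_P (w : ℕ → ℝ) (N : ℕ) : Continuous (P w N) := by
  unfold P
  fun_prop

lemma normSq_P (w : ℕ → ℝ) (N : ℕ) (x : UnitAddCircle) :
    ((‖P w N x‖ ^ 2 : ℝ) : ℂ) = ∑ s ∈ range N, ∑ s' ∈ range N,
      ((w s * w s' : ℝ) : ℂ) * (fourier ((s : ℤ) - s') x : ℂ) := by
  have : ((‖P w N x‖ ^ 2 : ℝ) : ℂ) = P w N x * (starRingEnd ℂ) (P w N x) := by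
    rw [Complex.mul_conj]; push_cast; rw [Complex.normSq_eq_norm_sq]; push_cast; ring
  rw [this, P, map_sum, sum_mul_sum]
  refine sum_congr rfl fun j _ => sum_congr rfl fun l _ => ?_
  rw [map_mul, conj_f, sub_eq_add_neg, fourier_add, Complex.conj_ofReal]
  push_cast
  ring

lemma int_P (w : ℕ → ℝ) (N : ℕ) :
    ∫ x : UnitAddCircle, ‖P w N x‖ ^ 2 = ∑ s ∈ range N, w s ^ 2 := by
  have := prob_vol
  have : ((∫ x : UnitAddCircle, ‖P w N x‖ ^ 2 : ℝ) : ℂ) = ((∑ s ∈ range N, w s ^ 2 : ℝ) : ℂ) := by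
    rw [← integral_complex_ofReal]
    simp only [normSq_P]
    rw [integral_finsetSum]
    · push_cast
      refine sum_congr rfl fun s hs => ?_
      rw [integral_finsetSum]
      · have : ∀ s' ∈ range N, ∫ x : UnitAddCircle, ((w s : ℂ) * (w s' : ℂ)) *
            (fourier ((s : ℤ) - s') x : ℂ) = if s' = s then (w s : ℂ) ^ 2 else 0 := by
          intro s' _
          rw [integral_const_mul, int_fourier]
          by_cases h : s' = s
          · subst h; simp [pow_two]
          · rw [if_neg (by intro h2; apply h; omega), if_neg h, mul_zero]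
        rw [sum_congr rfl this, sum_ite_eq' (range N) s, if_pos hs]
      · intro s' _
        exact (int_f _).const_mul _
    · intro s _
      exact integrable_finsetSum _ fun s' _ => (int_f _).const_mul _
  exact_mod_cast this

/-- the number of pairs with sum `s`. -/
noncomputable def rr (M s : ℕ) : ℝ :=
  (((range M ×ˢ range M).filter fun u => u.1 + u.2 = s).card : ℝ)

lemma P_sq {M : ℕ} (x : UnitAddCircle) :
    P (fun _ => 1) M x ^ 2 = P (rr M) (2 * M - 1) x := by
  rw [P, pow_two, sum_mul_sum, ← sum_product', P]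
  have hmap : ∀ u ∈ range M ×ˢ range M, u.1 + u.2 ∈ range (2 * M - 1) := by
    intro u hu
    rw [mem_product, mem_range, mem_range] at hu
    rw [mem_range]; omega
  rw [← sum_fiberwise_of_maps_to hmap]
  refine sum_congr rfl fun s _ => ?_
  have : ∀ u ∈ (range M ×ˢ range M).filter (fun u => u.1 + u.2 = s),
      (((1 : ℝ) : ℂ) * (fourier ((u.1 : ℕ) : ℤ) x : ℂ)) *
        (((1 : ℝ) : ℂ) * (fourier ((u.2 : ℕ) : ℤ) x : ℂ)) = (fourier (s : ℤ) x : ℂ) := by
    intro u hu
    rw [mem_filter] at hu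
    rw [← hu.2]
    push_cast
    rw [fourier_add]
    ring
  rw [sum_congr rfl this, sum_const, rr, nsmul_eq_mul]
  push_cast
  rfl

lemma rr_sum (M : ℕ) : ∑ s ∈ range (2 * M - 1), rr M s = (M : ℝ) ^ 2 := by
  have h := P_sq (M := M) 0
  simp only [P, fourier_eval_zero] at h
  have h2 : ((∑ s ∈ range (2 * M - 1), rr M s : ℝ) : ℂ) = (((M : ℝ) ^ 2 : ℝ) : ℂ) := by
    push_cast
    simp at h
    exact h.symm
  exact_mod_cast h2

noncomputable def JJ (M : ℕ) : ℝ := ∑ s ∈ range (2 * M - 1), rr M s ^ 2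

lemma JJ_lower {M : ℕ} (hM : 1 ≤ M) : (M : ℝ) ^ 3 / 2 ≤ JJ M := by
  have h := sq_sum_le_card_mul_sum_sq (s := range (2 * M - 1)) (f := rr M)
  rw [rr_sum, card_range] at h
  have hM' : (1 : ℝ) ≤ M := by exact_mod_cast hM
  have h2 : ((2 * M - 1 : ℕ) : ℝ) ≤ 2 * M := by
    have : 2 * M - 1 ≤ 2 * M := Nat.sub_le _ _
    exact_mod_cast this
  have hJ : 0 ≤ JJ M := sum_nonneg fun s _ => sq_nonneg _
  have h3 : ((M : ℝ) ^ 2) ^ 2 ≤ 2 * M * JJ M := h.trans (by unfold JJ at *; gcongr)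
  have : (M : ℝ) * ((M : ℝ) ^ 3) ≤ M * (2 * JJ M) := by nlinarith
  have := le_of_mul_le_mul_left this (by linarith)
  linarith

end Pool.Agent.H310.MG
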