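import Pool.Agent.H310.MG.D

set_option autoImplicit false

open MeasureTheory Finset

namespace Pool.Agent.H310.MG

lemma norm_toCircle_lower (u : UnitAddCircle) : 4 * ‖u‖ ≤ ‖((AddCircle.toCircle u : Circle) : ℂ) - 1‖ := by
  obtain ⟨r, rfl⟩ : ∃ r : ℝ, (r : UnitAddCircle) = u := QuotientAddGroup.mk_surjective u
  have e : (r : UnitAddCircle) = ((r - round r : ℝ) : UnitAddCircle) := by
    rw [AddCircle.coe_sub]
    have : ((round r : ℝ) : UnitAddCircle) = 0 := by
      rw [AddCircle.coe_eq_zero_iff]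
      exact ⟨round r, by simp⟩
    rw [this, sub_zero]
  rw [UnitAddCircle.norm_eq, e, AddCircle.toCircle_apply_mk, Circle.coe_exp]
  have h := Complex.norm_exp_I_mul_ofReal_sub_one (2 * Real.pi / 1 * (r - round r))
  rw [mul_comm Complex.I] at h
  rw [h, Real.norm_eq_abs, abs_mul, abs_two]
  have hpi := Real.pi_pos
  have e2 : 2 * Real.pi / 1 * (r - round r) / 2 = Real.pi * (r - round r) := by ring
  rw [e2]
  set v : ℝ := r - round r with hv
  have hv2 : |v| ≤ 1 / 2 := abs_sub_round r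
  have h3 : |Real.sin (Real.pi * v)| = Real.sin (Real.pi * |v|) := by
    rcases le_total 0 v with h0 | h0
    · rw [abs_of_nonneg h0, abs_of_nonneg]
      rw [abs_of_nonneg h0] at hv2
      exact Real.sin_nonneg_of_nonneg_of_le_pi (by positivity) (by nlinarith)
    · rw [abs_of_nonpos h0, mul_neg, Real.sin_neg, abs_of_nonpos]
      rw [abs_of_nonpos h0] at hv2
      have : 0 ≤ Real.sin (Real.pi * (-v)) :=
        Real.sin_nonneg_of_nonneg_of_le_pi (mul_nonneg hpi.le (by linarith)) (by nlinarith)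
      rw [mul_neg, Real.sin_neg] at this
      linarith
  rw [h3]
  have h4 := Real.mul_le_sin (x := Real.pi * |v|) (by positivity) (by nlinarith)
  have h5 : 2 / Real.pi * (Real.pi * |v|) = 2 * |v| := by field_simp
  rw [h5] at h4
  linarith

lemma norm_P_one (M : ℕ) (t : UnitAddCircle) : ‖P (fun _ => 1) M t‖ * ‖t‖ ≤ 1 / 2 := by
  have h1 : (((AddCircle.toCircle t : Circle) : ℂ) - 1) * P (fun _ => 1) M t =
      ((AddCircle.toCircle t : Circle) : ℂ) ^ M - 1 := by
    have : P (fun _ => 1) M t = ∑ j ∈ range M, ((AddCircle.toCircle t : Circle) : ℂ) ^ j := by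
      rw [P]
      refine sum_congr rfl fun j _ => ?_
      rw [fourier_apply, natCast_zsmul, AddCircle.toCircle_nsmul]
      simp
    rw [this, mul_comm, geom_sum_mul]
  have h2 := congrArg norm h1
  rw [norm_mul] at h2
  have h3 : ‖((AddCircle.toCircle t : Circle) : ℂ) ^ M - 1‖ ≤ 2 := by
    refine (norm_sub_le _ _).trans ?_
    rw [norm_pow, Circle.norm_coe]
    norm_num
  have h4 := norm_toCircle_lower t
  have h5 : 4 * ‖t‖ * ‖P (fun _ => 1) M t‖ ≤ 2 :=
    (mul_le_mul_of_nonneg_right h4 (norm_nonneg _)).trans (h2.trans_le h3)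
  linarith

/-- the kernel -/
noncomputable def kk (M : ℕ) (t : UnitAddCircle) : ℝ := ‖P (rr M) (2 * M - 1) t‖ ^ 2

lemma kk_eq (M : ℕ) (t : UnitAddCircle) : kk M t = ‖P (fun _ => 1) M t‖ ^ 4 := by
  rw [kk, ← P_sq, norm_pow]; ring

lemma kk_cont (M : ℕ) : Continuous (kk M) := ((cont_P _ _).norm).pow 2

lemma kk_nonneg (M : ℕ) (t : UnitAddCircle) : 0 ≤ kk M t := by unfold kk; positivity

lemma kk_int (M : ℕ) : ∫ t, kk M t = JJ M := by
  simp only [kk]; exact int_P _ _

lemma integrable_cont {f : UnitAddCircle → ℝ} (hf : Continuous f) (μ : Measure UnitAddCircle)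
    [IsFiniteMeasure μ] : Integrable f μ :=
  hf.integrable_of_hasCompactSupport (HasCompactSupport.of_compactSpace f)

lemma integrable_contC {f : UnitAddCircle → ℂ} (hf : Continuous f) (μ : Measure UnitAddCircle)
    [IsFiniteMeasure μ] : Integrable f μ :=
  hf.integrable_of_hasCompactSupport (HasCompactSupport.of_compactSpace f)

lemma moment {M : ℕ} (hM : 1 ≤ M) : ∫ t : UnitAddCircle, ‖t‖ * kk M t ≤ 3 / 4 / M * JJ M := by
  have := prob_vol
  have hM' : (1 : ℝ) ≤ M := by exact_mod_cast hM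
  have h1 : ∀ t : UnitAddCircle, ‖t‖ * kk M t ≤
      1 / (2 * M) * kk M t + M / 8 * ‖P (fun _ => 1) M t‖ ^ 2 := by
    intro t
    rw [kk_eq]
    have h2 := norm_P_one M t
    set D := ‖P (fun _ => 1) M t‖ with hD
    have hD0 : 0 ≤ D := norm_nonneg _
    have ht : 0 ≤ ‖t‖ := norm_nonneg _
    -- ‖t‖ ≤ (1/2)(1/M + M ‖t‖^2)
    have h3 : ‖t‖ ≤ 1 / (2 * M) + M / 2 * ‖t‖ ^ 2 := by
      have h4 : 0 ≤ (M * ‖t‖ - 1) ^ 2 / (2 * M) := by positivity
      have h5 : (M * ‖t‖ - 1) ^ 2 / (2 * M) = 1 / (2 * M) + M / 2 * ‖t‖ ^ 2 - ‖t‖ := by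
        field_simp
        ring
      linarith
    have h6 : (D * ‖t‖) ^ 2 ≤ 1 / 4 := by nlinarith [mul_nonneg hD0 ht]
    calc ‖t‖ * D ^ 4 ≤ (1 / (2 * M) + M / 2 * ‖t‖ ^ 2) * D ^ 4 := by gcongr
      _ = 1 / (2 * M) * D ^ 4 + M / 2 * (D ^ 2 * (D * ‖t‖) ^ 2) := by ring
      _ ≤ 1 / (2 * M) * D ^ 4 + M / 2 * (D ^ 2 * (1 / 4)) := by gcongr
      _ = _ := by ring
  have h2 : ∫ t : UnitAddCircle, ‖t‖ * kk M t ≤
      ∫ t : UnitAddCircle, (1 / (2 * M) * kk M t + M / 8 * ‖P (fun _ => 1) M t‖ ^ 2) := by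
    refine integral_mono ?_ ?_ h1
    · exact integrable_cont (continuous_norm.mul (kk_cont M)) _
    · exact integrable_cont ((continuous_const.mul (kk_cont M)).add
        (continuous_const.mul ((cont_P _ _).norm.pow 2))) _
  have i1 : Integrable (fun t : UnitAddCircle => 1 / (2 * (M : ℝ)) * kk M t) :=
    integrable_cont (continuous_const.mul (kk_cont M)) _
  have i2 : Integrable (fun t : UnitAddCircle => (M : ℝ) / 8 * ‖P (fun _ => 1) M t‖ ^ 2) :=
    integrable_cont (continuous_const.mul ((cont_P _ _).norm.pow 2)) _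
  rw [integral_add i1 i2, integral_const_mul, integral_const_mul, kk_int, int_P] at h2
  simp only [one_pow, sum_const, card_range, nsmul_eq_mul, mul_one] at h2
  refine h2.trans ?_
  have h3 := JJ_lower hM
  have h4 : (M : ℝ) / 8 * M ≤ 1 / 4 / M * JJ M := by
    calc (M : ℝ) / 8 * M = 1 / 4 / M * ((M : ℝ) ^ 3 / 2) := by field_simp; ring
      _ ≤ _ := by gcongr
  have h5 : 1 / (2 * (M : ℝ)) * JJ M + 1 / 4 / M * JJ M = 3 / 4 / M * JJ M := by
    field_simp; ring
  linarith

/-- Fourier coefficients -/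
noncomputable def cf (f : UnitAddCircle → ℝ) (k : ℤ) : ℂ := ∫ t, (fourier (-k) t : ℂ) * (f t : ℂ)

/-- the approximating polynomial -/
noncomputable def gg (M : ℕ) (f : UnitAddCircle → ℝ) (x : UnitAddCircle) : ℂ :=
  ((JJ M : ℝ) : ℂ)⁻¹ * ∑ s ∈ range (2 * M - 1), ∑ s' ∈ range (2 * M - 1),
    ((rr M s * rr M s' : ℝ) : ℂ) * (cf f ((s : ℤ) - s') * (fourier ((s : ℤ) - s') x : ℂ))

lemma conv_fourier (f : UnitAddCircle → ℝ) (k : ℤ) (x : UnitAddCircle) :
    ∫ t, (f (x - t) : ℂ) * (fourier k t : ℂ) = cf f k * (fourier k x : ℂ) := by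
  have h := integral_sub_left_eq_self (fun t : UnitAddCircle => (f t : ℂ) * (fourier k (x - t) : ℂ))
    volume x
  have e : ∀ t : UnitAddCircle, (f (x - t) : ℂ) * (fourier k (x - (x - t)) : ℂ) =
      (f (x - t) : ℂ) * (fourier k t : ℂ) := fun t => by rw [sub_sub_cancel]
  simp only [e] at h
  rw [h, cf, ← integral_mul_const]
  refine integral_congr_ae (Filter.Eventually.of_forall fun t => ?_)
  show (f t : ℂ) * (fourier k (x - t) : ℂ) = (fourier (-k) t : ℂ) * (f t : ℂ) * (fourier k x : ℂ)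
  have : (fourier k (x - t) : ℂ) = (fourier k x : ℂ) * (fourier (-k) t : ℂ) := by
    simp only [fourier_apply]
    rw [zsmul_sub, sub_eq_add_neg, AddCircle.toCircle_add, neg_smul]
    simp
  rw [this]; ring

lemma gg_eq (M : ℕ) {f : UnitAddCircle → ℝ} (hf : Continuous f) (x : UnitAddCircle) :
    gg M f x = ((JJ M : ℝ) : ℂ)⁻¹ * ∫ t, (f (x - t) : ℂ) * ((kk M t : ℝ) : ℂ) := by
  have := prob_vol
  have hfx : Continuous fun t : UnitAddCircle => (f (x - t) : ℂ) :=
    Complex.continuous_ofReal.comp (hf.comp (continuous_const.sub continuous_id))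
  rw [gg]
  congr 1
  simp only [kk, normSq_P]
  simp only [mul_sum]
  rw [integral_finsetSum]
  · refine sum_congr rfl fun s _ => ?_
    rw [integral_finsetSum]
    · refine sum_congr rfl fun s' _ => ?_
      rw [← conv_fourier, ← integral_const_mul]
      refine integral_congr_ae (Filter.Eventually.of_forall fun t => ?_)
      show ((rr M s * rr M s' : ℝ) : ℂ) * ((f (x - t) : ℂ) * (fourier ((s : ℤ) - s') t : ℂ)) =
        (f (x - t) : ℂ) * (((rr M s * rr M s' : ℝ) : ℂ) * (fourier ((s : ℤ) - s') t : ℂ))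
      ring
    · intro s' _
      refine integrable_contC (hfx.mul (continuous_const.mul ?_)) _
      exact (fourier _).continuous
  · intro s _
    refine integrable_finsetSum _ fun s' _ => ?_
    refine integrable_contC (hfx.mul (continuous_const.mul ?_)) _
    exact (fourier _).continuous

lemma approx {M : ℕ} (hM : 1 ≤ M) {f : UnitAddCircle → ℝ} {K : NNReal} (hf : LipschitzWith K f)
    (x : UnitAddCircle) : ‖(f x : ℂ) - gg M f x‖ ≤ 3 / 4 / M * K := by
  have := prob_vol
  have hM' : (1 : ℝ) ≤ M := by exact_mod_cast hM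
  have hJ : 0 < JJ M := lt_of_lt_of_le (by positivity) (JJ_lower hM)
  have hJ' : ((JJ M : ℝ) : ℂ) ≠ 0 := by exact_mod_cast hJ.ne'
  have hfc := hf.continuous
  have hfx : Continuous fun t : UnitAddCircle => (f (x - t) : ℂ) :=
    Complex.continuous_ofReal.comp (hfc.comp (continuous_const.sub continuous_id))
  have hkC : Continuous fun t : UnitAddCircle => ((kk M t : ℝ) : ℂ) :=
    Complex.continuous_ofReal.comp (kk_cont M)
  have h1 : (f x : ℂ) - gg M f x =
      ((JJ M : ℝ) : ℂ)⁻¹ * ∫ t, ((f x : ℂ) - (f (x - t) : ℂ)) * ((kk M t : ℝ) : ℂ) := by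
    have : ∫ t, ((f x : ℂ) - (f (x - t) : ℂ)) * ((kk M t : ℝ) : ℂ) =
        (∫ t, (f x : ℂ) * ((kk M t : ℝ) : ℂ)) - ∫ t, (f (x - t) : ℂ) * ((kk M t : ℝ) : ℂ) := by
      have i1 : Integrable (fun t : UnitAddCircle => (f x : ℂ) * ((kk M t : ℝ) : ℂ)) :=
        integrable_contC (continuous_const.mul hkC) _
      have i2 : Integrable (fun t : UnitAddCircle => (f (x - t) : ℂ) * ((kk M t : ℝ) : ℂ)) :=
        integrable_contC (hfx.mul hkC) _
      rw [← integral_sub i1 i2]
      simp only [sub_mul]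
    rw [this, gg_eq M hfc, integral_const_mul, integral_complex_ofReal, kk_int, mul_sub]
    congr 1
    field_simp
  rw [h1, norm_mul, norm_inv, Complex.norm_real, Real.norm_eq_abs, abs_of_pos hJ]
  have h2 : ‖∫ t, ((f x : ℂ) - (f (x - t) : ℂ)) * ((kk M t : ℝ) : ℂ)‖ ≤
      ∫ t : UnitAddCircle, K * (‖t‖ * kk M t) := by
    refine norm_integral_le_of_norm_le ?_ (Filter.Eventually.of_forall fun t => ?_)
    · exact integrable_cont (continuous_const.mul (continuous_norm.mul (kk_cont M))) _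
    · rw [norm_mul, Complex.norm_real (kk M t), Real.norm_eq_abs, abs_of_nonneg (kk_nonneg M t),
        ← mul_assoc]
      refine mul_le_mul_of_nonneg_right ?_ (kk_nonneg M t)
      have h3 := hf.dist_le_mul x (x - t)
      rw [Real.dist_eq] at h3
      rw [← Complex.ofReal_sub, Complex.norm_real, Real.norm_eq_abs]
      refine h3.trans (le_of_eq ?_)
      rw [dist_eq_norm, sub_sub_cancel]
  rw [integral_const_mul] at h2
  have h3 := moment hM
  calc (JJ M)⁻¹ * ‖∫ t, ((f x : ℂ) - (f (x - t) : ℂ)) * ((kk M t : ℝ) : ℂ)‖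
      ≤ (JJ M)⁻¹ * (K * (3 / 4 / M * JJ M)) := by
        have := h2.trans (mul_le_mul_of_nonneg_left h3 K.coe_nonneg)
        gcongr
    _ = 3 / 4 / M * K := by field_simp

end Pool.Agent.H310.MG
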