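import Pool.Agent.H310.MG.E

set_option autoImplicit false

open MeasureTheory Finset

namespace Pool.Agent.H310.MG

lemma haar_eq : (AddCircle.haarAddCircle : Measure UnitAddCircle) = volume := by
  rw [AddCircle.volume_eq_smul_haarAddCircle]
  simp

lemma bessel {F : UnitAddCircle → ℂ} (hF : Continuous F) (T : Finset ℤ) :
    ∑ k ∈ T, ‖∫ t, (fourier (-k) t : ℂ) * F t‖ ^ 2 ≤ ∫ t, ‖F t‖ ^ 2 := by
  let F' : C(UnitAddCircle, ℂ) := ⟨F, hF⟩
  have hs := hasSum_sq_fourierCoeff (ContinuousMap.toLp (E := ℂ) 2 AddCircle.haarAddCircle ℂ F')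
  have h1 := sum_le_hasSum T (fun k _ => by positivity) hs
  have h2 : ∫ t : UnitAddCircle, ‖(ContinuousMap.toLp (E := ℂ) 2 AddCircle.haarAddCircle ℂ F') t‖ ^ 2
      ∂AddCircle.haarAddCircle = ∫ t, ‖F t‖ ^ 2 := by
    have h3 := ContinuousMap.coeFn_toLp (p := 2) (𝕜 := ℂ) AddCircle.haarAddCircle F'
    rw [← haar_eq]
    refine integral_congr_ae ?_
    filter_upwards [h3] with t ht
    rw [ht]
    rfl
  rw [h2] at h1
  refine le_trans (le_of_eq ?_) h1
  refine sum_congr rfl fun k _ => ?_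
  rw [fourierCoeff_toLp, fourierCoeff, haar_eq]
  rfl

lemma norm_half {r : ℝ} (hr : |r| ≤ 1 / 2) : ‖(r : UnitAddCircle)‖ = |r| := by
  rw [AddCircle.norm_coe_eq_abs_iff (1 : ℝ) one_ne_zero]
  simpa using hr

/-- The nonzero frequencies below `p`. -/
noncomputable def TT (p : ℕ) : Finset ℤ := (Finset.Ioo (-(p : ℤ)) p).erase 0

lemma mem_TT {p : ℕ} {k : ℤ} : k ∈ TT p ↔ k ≠ 0 ∧ -(p : ℤ) < k ∧ k < p := by
  simp [TT]

lemma shift_coeff {f : UnitAddCircle → ℝ} (hf : Continuous f) (k : ℤ) (h : UnitAddCircle) :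
    ∫ t, (fourier (-k) t : ℂ) * (((f (t + h) : ℝ) : ℂ) - (f t : ℂ)) =
      ((fourier k h : ℂ) - 1) * cf f k := by
  have := prob_vol
  have i1 : Integrable (fun t : UnitAddCircle => (fourier (-k) t : ℂ) * ((f (t + h) : ℝ) : ℂ)) :=
    integrable_contC ((fourier _).continuous.mul (Complex.continuous_ofReal.comp
      (hf.comp (continuous_id.add continuous_const)))) _
  have i2 : Integrable (fun t : UnitAddCircle => (fourier (-k) t : ℂ) * ((f t : ℝ) : ℂ)) :=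
    integrable_contC ((fourier _).continuous.mul (Complex.continuous_ofReal.comp hf)) _
  simp only [mul_sub]
  rw [integral_sub i1 i2, sub_mul, one_mul]
  congr 1
  have h1 := integral_add_right_eq_self (μ := (volume : Measure UnitAddCircle))
    (fun t : UnitAddCircle => (fourier (-k) (t - h) : ℂ) * ((f t : ℝ) : ℂ)) h
  have e : ∀ t : UnitAddCircle, (fourier (-k) (t + h - h) : ℂ) * ((f (t + h) : ℝ) : ℂ) =
      (fourier (-k) t : ℂ) * ((f (t + h) : ℝ) : ℂ) := fun t => by rw [add_sub_cancel_right]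
  simp only [e] at h1
  rw [h1, cf, ← integral_const_mul]
  refine integral_congr_ae (Filter.Eventually.of_forall fun t => ?_)
  show (fourier (-k) (t - h) : ℂ) * (f t : ℂ) = (fourier k h : ℂ) * ((fourier (-k) t : ℂ) * (f t : ℂ))
  have : (fourier (-k) (t - h) : ℂ) = (fourier k h : ℂ) * (fourier (-k) t : ℂ) := by
    simp only [fourier_apply]
    rw [zsmul_sub, sub_eq_add_neg, AddCircle.toCircle_add, neg_smul, neg_smul, neg_neg]
    simp [mul_comm]
  rw [this]; ring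

lemma coeff_sq {f : UnitAddCircle → ℝ} {K : NNReal} (hf : LipschitzWith K f) {p : ℕ} (hp : 1 ≤ p) :
    ∑ k ∈ TT p, (k : ℝ) ^ 2 * ‖cf f k‖ ^ 2 ≤ (K : ℝ) ^ 2 / 16 := by
  have := prob_vol
  have hp' : (1 : ℝ) ≤ p := by exact_mod_cast hp
  set h : UnitAddCircle := ((1 / (2 * p) : ℝ) : UnitAddCircle) with hh
  have hhn : ‖h‖ = 1 / (2 * p) := by
    rw [hh, norm_half]
    · exact abs_of_pos (by positivity)
    · rw [abs_of_pos (by positivity)]
      gcongr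
      linarith
  have hF : Continuous fun t : UnitAddCircle => (((f (t + h) : ℝ) : ℂ) - (f t : ℂ)) :=
    (Complex.continuous_ofReal.comp (hf.continuous.comp (continuous_id.add continuous_const))).sub
      (Complex.continuous_ofReal.comp hf.continuous)
  have h1 := bessel hF (TT p)
  have h2 : ∫ t : UnitAddCircle, ‖((f (t + h) : ℝ) : ℂ) - (f t : ℂ)‖ ^ 2 ≤
      ∫ _ : UnitAddCircle, (K * (1 / (2 * p)) : ℝ) ^ 2 := by
    refine integral_mono (integrable_cont (hF.norm.pow 2) _) (integrable_const _) fun t => ?_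
    show ‖((f (t + h) : ℝ) : ℂ) - (f t : ℂ)‖ ^ 2 ≤ (K * (1 / (2 * p)) : ℝ) ^ 2
    have h3 := hf.dist_le_mul (t + h) t
    rw [Real.dist_eq, dist_eq_norm, add_sub_cancel_left, hhn] at h3
    rw [← Complex.ofReal_sub, Complex.norm_real, Real.norm_eq_abs]
    gcongr
  rw [integral_const, probReal_univ, one_smul] at h2
  have h4 : ∀ k ∈ TT p, 4 / (p : ℝ) ^ 2 * ((k : ℝ) ^ 2 * ‖cf f k‖ ^ 2) ≤
      ‖∫ t, (fourier (-k) t : ℂ) * (((f (t + h) : ℝ) : ℂ) - (f t : ℂ))‖ ^ 2 := by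
    intro k hk
    rw [mem_TT] at hk
    rw [shift_coeff hf.continuous, norm_mul, mul_pow]
    have h5 : 2 * |(k : ℝ)| / p ≤ ‖(fourier k h : ℂ) - 1‖ := by
      have h6 := norm_toCircle_lower (k • h)
      have h7 : k • h = ((k * (1 / (2 * p)) : ℝ) : UnitAddCircle) := by
        rw [hh, ← AddCircle.coe_zsmul, zsmul_eq_mul]
      have hk1 : |(k : ℝ)| ≤ p := by
        rw [abs_le]
        constructor
        · have : (-(p : ℤ)) ≤ k := hk.2.1.le
          exact_mod_cast this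
        · exact_mod_cast hk.2.2.le
      have h8 : ‖k • h‖ = |(k : ℝ)| * (1 / (2 * p)) := by
        rw [h7, norm_half]
        · rw [abs_mul, abs_of_pos (show (0 : ℝ) < 1 / (2 * p) by positivity)]
        · rw [abs_mul, abs_of_pos (show (0 : ℝ) < 1 / (2 * p) by positivity)]
          calc |(k : ℝ)| * (1 / (2 * p)) ≤ p * (1 / (2 * p)) := by gcongr
            _ = 1 / 2 := by field_simp
      rw [h8] at h6
      rw [fourier_apply]
      refine le_trans (le_of_eq ?_) h6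
      field_simp
      ring
    calc 4 / (p : ℝ) ^ 2 * ((k : ℝ) ^ 2 * ‖cf f k‖ ^ 2)
        = (2 * |(k : ℝ)| / p) ^ 2 * ‖cf f k‖ ^ 2 := by
          rw [div_pow, mul_pow, sq_abs]; ring
      _ ≤ ‖(fourier k h : ℂ) - 1‖ ^ 2 * ‖cf f k‖ ^ 2 := by gcongr
  have h5 := (sum_le_sum h4).trans (h1.trans h2)
  rw [← mul_sum] at h5
  have h6 : (K * (1 / (2 * p)) : ℝ) ^ 2 = 4 / (p : ℝ) ^ 2 * ((K : ℝ) ^ 2 / 16) := by
    field_simp; ring
  rw [h6] at h5
  exact le_of_mul_le_mul_left h5 (by positivity)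

lemma TT_succ {p : ℕ} (hp : 1 ≤ p) : TT (p + 1) = insert (p : ℤ) (insert (-(p : ℤ)) (TT p)) := by
  ext k
  simp only [mem_insert, mem_TT]
  push_cast
  omega

lemma sum_inv_sq (p : ℕ) (hp : 1 ≤ p) :
    ∑ k ∈ TT (p + 1), (1 / (k : ℝ)) ^ 2 ≤ 4 - 2 / (p : ℝ) := by
  have step : ∀ q : ℕ, 1 ≤ q → ∑ k ∈ TT (q + 1), (1 / (k : ℝ)) ^ 2 =
      ∑ k ∈ TT q, (1 / (k : ℝ)) ^ 2 + 2 / (q : ℝ) ^ 2 := by
    intro q hq
    have hq' : (q : ℝ) ≠ 0 := by exact_mod_cast (by omega : q ≠ 0)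
    rw [TT_succ hq, sum_insert, sum_insert]
    · push_cast
      field_simp
      ring
    · rw [mem_TT]; omega
    · rw [mem_insert, mem_TT]; omega
  induction p, hp using Nat.le_induction with
  | base =>
    rw [step 1 le_rfl]
    have : TT 1 = ∅ := by
      ext k
      simp only [mem_TT, notMem_empty, iff_false]
      push_cast
      omega
    rw [this]; norm_num
  | succ p hp ih =>
    rw [step (p + 1) (by omega)]
    have hp' : (1 : ℝ) ≤ p := by exact_mod_cast hp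
    have h2 : 2 / ((p + 1 : ℕ) : ℝ) ^ 2 ≤ 2 / (p : ℝ) - 2 / ((p + 1 : ℕ) : ℝ) := by
      push_cast
      have h3 : 2 / (p : ℝ) - 2 / ((p : ℝ) + 1) = 2 / (p * ((p : ℝ) + 1)) := by
        field_simp; ring
      rw [h3]
      gcongr
      nlinarith
    linarith

lemma coeff_sum {f : UnitAddCircle → ℝ} {K : NNReal} (hf : LipschitzWith K f) {p : ℕ}
    (hp : 2 ≤ p) : ∑ k ∈ TT p, ‖cf f k‖ ≤ (K : ℝ) / 2 := by
  have h1 := coeff_sq hf (p := p) (by omega)
  have h2 := sum_inv_sq (p - 1) (by omega)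
  rw [show p - 1 + 1 = p by omega] at h2
  have h3 : ∑ k ∈ TT p, (1 / (k : ℝ)) ^ 2 ≤ 4 := by
    have : 0 ≤ 2 / ((p - 1 : ℕ) : ℝ) := by positivity
    linarith
  have h4 := sum_mul_sq_le_sq_mul_sq (TT p) (fun k => |(k : ℝ)| * ‖cf f k‖) (fun k => 1 / |(k : ℝ)|)
  have h5 : ∑ k ∈ TT p, |(k : ℝ)| * ‖cf f k‖ * (1 / |(k : ℝ)|) = ∑ k ∈ TT p, ‖cf f k‖ := by
    refine sum_congr rfl fun k hk => ?_
    rw [mem_TT] at hk
    have : |(k : ℝ)| ≠ 0 := by
      rw [abs_ne_zero]; exact_mod_cast hk.1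
    field_simp
  have h6 : ∑ k ∈ TT p, (|(k : ℝ)| * ‖cf f k‖) ^ 2 ≤ (K : ℝ) ^ 2 / 16 := by
    refine le_trans (le_of_eq ?_) h1
    refine sum_congr rfl fun k hk => ?_
    rw [mul_pow, sq_abs]
  have h7 : ∑ k ∈ TT p, (1 / |(k : ℝ)|) ^ 2 ≤ 4 := by
    refine le_trans (le_of_eq ?_) h3
    refine sum_congr rfl fun k hk => ?_
    rw [div_pow, div_pow, sq_abs]
  rw [h5] at h4
  have h8 : (∑ k ∈ TT p, ‖cf f k‖) ^ 2 ≤ ((K : ℝ) / 2) ^ 2 := by
    refine h4.trans ?_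
    calc (∑ k ∈ TT p, (|(k : ℝ)| * ‖cf f k‖) ^ 2) * ∑ k ∈ TT p, (1 / |(k : ℝ)|) ^ 2
        ≤ (K : ℝ) ^ 2 / 16 * 4 := by
          refine mul_le_mul h6 h7 (sum_nonneg fun k _ => sq_nonneg _) (by positivity)
      _ = _ := by ring
  exact (sq_le_sq₀ (sum_nonneg fun k _ => norm_nonneg _) (by positivity)).1 h8

end Pool.Agent.H310.MG
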