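import Pool.Agent.H310.MG.F

set_option autoImplicit false

open MeasureTheory Finset

namespace Pool.Agent.H310.MG

variable {μ : Measure UnitAddCircle}

lemma row_sum {N p : ℕ} (hN : N ≤ p) (b : ℤ → ℝ) (hb : ∀ k, 0 ≤ b k) (s : ℕ) (hs : s ∈ range N) :
    ∑ s' ∈ (range N).erase s, b ((s : ℤ) - s') ≤ ∑ k ∈ TT p, b k := by
  have h1 : ∑ s' ∈ (range N).erase s, b ((s : ℤ) - s') =
      ∑ k ∈ ((range N).erase s).image (fun s' : ℕ => (s : ℤ) - s'), b k := by
    rw [sum_image]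
    intro x _ y _ hxy
    simp only at hxy
    omega
  rw [h1]
  refine sum_le_sum_of_subset_of_nonneg ?_ fun k _ _ => hb k
  intro k hk
  rw [mem_image] at hk
  obtain ⟨s', hs', rfl⟩ := hk
  rw [mem_erase, mem_range] at hs'
  rw [mem_range] at hs
  rw [mem_TT]
  omega

lemma col_sum {N p : ℕ} (hN : N ≤ p) (b : ℤ → ℝ) (hb : ∀ k, 0 ≤ b k) (s' : ℕ) (hs : s' ∈ range N) :
    ∑ s ∈ (range N).erase s', b ((s : ℤ) - s') ≤ ∑ k ∈ TT p, b k := by
  have h1 : ∑ s ∈ (range N).erase s', b ((s : ℤ) - s') =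
      ∑ k ∈ ((range N).erase s').image (fun s : ℕ => (s : ℤ) - s'), b k := by
    rw [sum_image]
    intro x _ y _ hxy
    simp only at hxy
    omega
  rw [h1]
  refine sum_le_sum_of_subset_of_nonneg ?_ fun k _ _ => hb k
  intro k hk
  rw [mem_image] at hk
  obtain ⟨s, hs', rfl⟩ := hk
  rw [mem_erase, mem_range] at hs'
  rw [mem_range] at hs
  rw [mem_TT]
  omega

lemma double_sum {N p : ℕ} (hN : N ≤ p) (b : ℤ → ℝ) (hb : ∀ k, 0 ≤ b k) (hb0 : b 0 = 0)
    (w : ℕ → ℝ) :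
    ∑ s ∈ range N, ∑ s' ∈ range N, w s * w s' * b ((s : ℤ) - s') ≤
      (∑ s ∈ range N, w s ^ 2) * ∑ k ∈ TT p, b k := by
  have h1 : ∀ s s' : ℕ, w s * w s' * b ((s : ℤ) - s') ≤
      w s ^ 2 / 2 * b ((s : ℤ) - s') + w s' ^ 2 / 2 * b ((s : ℤ) - s') := by
    intro s s'
    have : w s * w s' ≤ w s ^ 2 / 2 + w s' ^ 2 / 2 := by nlinarith [sq_nonneg (w s - w s')]
    have := mul_le_mul_of_nonneg_right this (hb ((s : ℤ) - s'))
    linarith
  have h2 : ∑ s ∈ range N, ∑ s' ∈ range N, w s ^ 2 / 2 * b ((s : ℤ) - s') ≤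
      (∑ s ∈ range N, w s ^ 2 / 2) * ∑ k ∈ TT p, b k := by
    rw [sum_mul]
    refine sum_le_sum fun s hs => ?_
    rw [← mul_sum]
    refine mul_le_mul_of_nonneg_left ?_ (by positivity)
    rw [← add_sum_erase _ _ hs, sub_self, hb0, zero_add]
    exact row_sum hN b hb s hs
  have h3 : ∑ s ∈ range N, ∑ s' ∈ range N, w s' ^ 2 / 2 * b ((s : ℤ) - s') ≤
      (∑ s ∈ range N, w s ^ 2 / 2) * ∑ k ∈ TT p, b k := by
    rw [sum_comm, sum_mul]
    refine sum_le_sum fun s hs => ?_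
    rw [← mul_sum]
    refine mul_le_mul_of_nonneg_left ?_ (by positivity)
    rw [← add_sum_erase _ _ hs, sub_self, hb0, zero_add]
    exact col_sum hN b hb s hs
  calc ∑ s ∈ range N, ∑ s' ∈ range N, w s * w s' * b ((s : ℤ) - s')
      ≤ ∑ s ∈ range N, ∑ s' ∈ range N,
        (w s ^ 2 / 2 * b ((s : ℤ) - s') + w s' ^ 2 / 2 * b ((s : ℤ) - s')) :=
        sum_le_sum fun s _ => sum_le_sum fun s' _ => h1 s s'
    _ ≤ _ := by
        simp only [sum_add_distrib]
        have : (∑ s ∈ range N, w s ^ 2) = 2 * ∑ s ∈ range N, w s ^ 2 / 2 := by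
          rw [mul_sum]; exact sum_congr rfl fun s _ => by ring
        rw [this]
        linarith

/-- The difference functional. -/
noncomputable def Lam (μ : Measure UnitAddCircle) (n : ℕ) (a : ℝ) (φ : UnitAddCircle → ℂ) : ℂ :=
  (∫ x, φ (n • x) ∂μ) - (a : ℂ) * φ 0 - (1 - (a : ℂ)) * ∫ x, φ x

lemma Lam_fourier (n : ℕ) (a : ℝ) (k : ℤ) :
    Lam μ n a (fun x => (fourier k x : ℂ)) =
      co μ (k * n) - a - (1 - (a : ℂ)) * (if k = 0 then 1 else 0) := by
  rw [Lam, int_fourier, co]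
  simp only [fourier_nsmul, fourier_eval_zero, mul_one]

lemma norm_Lam_fourier [IsProbabilityMeasure μ] {p : ℕ} (h : ∀ j : ℕ, 1 ≤ j → j < p →
    MeasurePreserving (fun x : UnitAddCircle => j • x) μ μ) (n : ℕ) (k : ℤ)
    (hk : k = 0 ∨ k ∈ TT p) :
    ‖Lam μ n (co μ n).re (fun x => (fourier k x : ℂ))‖ ≤ if k = 0 then 0 else |(co μ n).im| := by
  rw [Lam_fourier]
  rcases hk with rfl | hk
  · simp [co_zero]
  · rw [mem_TT] at hk
    rw [if_neg hk.1, if_neg hk.1, mul_zero, sub_zero]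
    rcases lt_trichotomy k 0 with h0 | h0 | h0
    · obtain ⟨j, hj⟩ : ∃ j : ℕ, k = -(j : ℤ) := ⟨k.natAbs, by omega⟩
      have : co μ (k * n) = (starRingEnd ℂ) (co μ n) := by
        rw [hj, neg_mul, co_neg, mul_comm, co_mul h n j (by omega) (by omega)]
      rw [this]
      have e : (starRingEnd ℂ) (co μ n) - ((co μ n).re : ℂ) = ((-(co μ n).im : ℝ) : ℂ) * Complex.I := by
        apply Complex.ext <;> simp
      rw [e, norm_mul, Complex.norm_I, mul_one, Complex.norm_real, Real.norm_eq_abs, abs_neg]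
    · exact absurd h0 hk.1
    · obtain ⟨j, hj⟩ : ∃ j : ℕ, k = (j : ℤ) := ⟨k.natAbs, by omega⟩
      have : co μ (k * n) = co μ n := by
        rw [hj, mul_comm, co_mul h n j (by omega) (by omega)]
      rw [this]
      have e : co μ n - ((co μ n).re : ℂ) = (((co μ n).im : ℝ) : ℂ) * Complex.I := by
        apply Complex.ext <;> simp
      rw [e, norm_mul, Complex.norm_I, mul_one, Complex.norm_real, Real.norm_eq_abs]

lemma Lam_gg [IsProbabilityMeasure μ] (n : ℕ) (a : ℝ) (M : ℕ) (f : UnitAddCircle → ℝ) :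
    Lam μ n a (gg M f) = ((JJ M : ℝ) : ℂ)⁻¹ * ∑ s ∈ range (2 * M - 1), ∑ s' ∈ range (2 * M - 1),
      ((rr M s * rr M s' : ℝ) : ℂ) * (cf f ((s : ℤ) - s') *
        Lam μ n a (fun x => (fourier ((s : ℤ) - s') x : ℂ))) := by
  have := prob_vol
  have h1 : ∀ (ρ : Measure UnitAddCircle) [IsProbabilityMeasure ρ] (m : ℕ),
      ∫ x, gg M f (m • x) ∂ρ = ((JJ M : ℝ) : ℂ)⁻¹ * ∑ s ∈ range (2 * M - 1),
        ∑ s' ∈ range (2 * M - 1), ((rr M s * rr M s' : ℝ) : ℂ) * (cf f ((s : ℤ) - s') *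
        ∫ x, (fourier ((s : ℤ) - s') (m • x) : ℂ) ∂ρ) := by
    intro ρ _ m
    have hc : ∀ k : ℤ, Continuous fun x : UnitAddCircle => (fourier k (m • x) : ℂ) := fun k =>
      (fourier k).continuous.comp (continuous_nsmul m)
    simp only [gg]
    rw [integral_const_mul, integral_finsetSum]
    · congr 1
      refine sum_congr rfl fun s _ => ?_
      rw [integral_finsetSum]
      · refine sum_congr rfl fun s' _ => ?_
        rw [integral_const_mul, integral_const_mul]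
      · intro s' _
        exact ((integrable_contC (hc _) _).const_mul _).const_mul _
    · intro s _
      exact integrable_finsetSum _ fun s' _ => ((integrable_contC (hc _) _).const_mul _).const_mul _
  have h2 := h1 μ n
  have h3 := h1 volume 1
  simp only [one_smul] at h3
  rw [Lam, h2, h3]
  simp only [gg, Lam]
  simp only [mul_sum, ← sum_sub_distrib]
  refine sum_congr rfl fun s _ => sum_congr rfl fun s' _ => ?_
  ring

lemma norm_Lam_gg [IsProbabilityMeasure μ] {p : ℕ} (h : ∀ j : ℕ, 1 ≤ j → j < p →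
    MeasurePreserving (fun x : UnitAddCircle => j • x) μ μ) (n : ℕ) {M : ℕ} (hM : 1 ≤ M)
    (hMp : 2 * M - 1 ≤ p) (f : UnitAddCircle → ℝ) :
    ‖Lam μ n (co μ n).re (gg M f)‖ ≤ |(co μ n).im| * ∑ k ∈ TT p, ‖cf f k‖ := by
  have hJ : 0 < JJ M := by
    have hM' : (1 : ℝ) ≤ M := by exact_mod_cast hM
    exact lt_of_lt_of_le (by positivity) (JJ_lower hM)
  rw [Lam_gg, norm_mul, norm_inv, Complex.norm_real, Real.norm_eq_abs, abs_of_pos hJ]
  set b : ℤ → ℝ := fun k => if k = 0 then 0 else |(co μ n).im| * ‖cf f k‖ with hb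
  have hb0 : ∀ k, 0 ≤ b k := by
    intro k; simp only [hb]; split_ifs <;> positivity
  have hrr : ∀ s, 0 ≤ rr M s := fun s => by unfold rr; positivity
  have h1 : ‖∑ s ∈ range (2 * M - 1), ∑ s' ∈ range (2 * M - 1),
      ((rr M s * rr M s' : ℝ) : ℂ) * (cf f ((s : ℤ) - s') *
        Lam μ n (co μ n).re (fun x => (fourier ((s : ℤ) - s') x : ℂ)))‖ ≤
      ∑ s ∈ range (2 * M - 1), ∑ s' ∈ range (2 * M - 1), rr M s * rr M s' * b ((s : ℤ) - s') := by
    refine (norm_sum_le _ _).trans (sum_le_sum fun s hs => (norm_sum_le _ _).trans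
      (sum_le_sum fun s' hs' => ?_))
    rw [norm_mul, Complex.norm_real, Real.norm_eq_abs,
      abs_of_nonneg (mul_nonneg (hrr s) (hrr s'))]
    refine mul_le_mul_of_nonneg_left ?_ (mul_nonneg (hrr s) (hrr s'))
    rw [mem_range] at hs hs'
    have hk : ((s : ℤ) - s') = 0 ∨ ((s : ℤ) - s') ∈ TT p := by
      rw [mem_TT]; omega
    have h2 := norm_Lam_fourier h n _ hk
    rw [norm_mul]
    simp only [hb]
    split_ifs with h3
    · rw [if_pos h3] at h2
      have : ‖Lam μ n (co μ n).re (fun x => (fourier ((s : ℤ) - s') x : ℂ))‖ = 0 :=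
        le_antisymm h2 (norm_nonneg _)
      rw [this, mul_zero]
    · rw [if_neg h3] at h2
      rw [mul_comm]
      gcongr
  have h2 := double_sum hMp b hb0 (by simp [hb]) (rr M)
  have h3 : ∑ k ∈ TT p, b k = |(co μ n).im| * ∑ k ∈ TT p, ‖cf f k‖ := by
    rw [mul_sum]
    refine sum_congr rfl fun k hk => ?_
    rw [mem_TT] at hk
    simp only [hb]
    rw [if_neg hk.1]
  rw [h3] at h2
  calc (JJ M)⁻¹ * _ ≤ (JJ M)⁻¹ * (JJ M * (|(co μ n).im| * ∑ k ∈ TT p, ‖cf f k‖)) := by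
        have := h1.trans h2
        gcongr
        exact this
    _ = _ := by field_simp

end Pool.Agent.H310.MG
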