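import Pool.Agent.H310.MG.G

set_option autoImplicit false

open MeasureTheory Finset

namespace Pool.Agent.H310.MG

variable {μ : Measure UnitAddCircle}

lemma tan_le {p : ℕ} (hp : 3 ≤ p) : Real.tan (Real.pi / p) ≤ 2 * Real.pi / p := by
  have hp' : (3 : ℝ) ≤ p := by exact_mod_cast hp
  have hpi := Real.pi_pos
  set t : ℝ := Real.pi / p with ht
  have ht0 : 0 < t := by positivity
  have ht1 : t ≤ Real.pi / 3 := by rw [ht]; gcongr
  have hc : 1 / 2 ≤ Real.cos t := by
    rw [← Real.cos_pi_div_three]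
    exact Real.cos_le_cos_of_nonneg_of_le_pi ht0.le (by linarith) ht1
  have hs : Real.sin t ≤ t := Real.sin_le ht0.le
  rw [Real.tan_eq_sin_div_cos, div_le_iff₀ (by linarith)]
  calc Real.sin t ≤ t := hs
    _ = 2 * Real.pi / p * (1 / 2) := by rw [ht]; ring
    _ ≤ _ := by gcongr

lemma norm_le_half (x : UnitAddCircle) : ‖x‖ ≤ 1 / 2 := by
  have := AddCircle.norm_le_half_period (1 : ℝ) (x := x) one_ne_zero
  simpa using this

lemma f_zero_sub {f : UnitAddCircle → ℝ} {K : NNReal} (hf : LipschitzWith K f) :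
    |f 0 - ∫ x, f x| ≤ K / 2 := by
  have := prob_vol
  have h1 : f 0 - ∫ x, f x = ∫ x, (f 0 - f x) := by
    rw [integral_sub (integrable_const _) (integrable_cont hf.continuous _)]
    simp
  rw [h1, ← Real.norm_eq_abs]
  have h2 : ‖∫ x : UnitAddCircle, (f 0 - f x)‖ ≤ ∫ _ : UnitAddCircle, (K : ℝ) / 2 := by
    refine norm_integral_le_of_norm_le (integrable_const _)
      (Filter.Eventually.of_forall fun x => ?_)
    have h3 := hf.dist_le_mul 0 x
    rw [dist_eq_norm, dist_eq_norm, zero_sub, norm_neg] at h3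
    have := norm_le_half x
    calc ‖f 0 - f x‖ ≤ K * ‖x‖ := h3
      _ ≤ K * (1 / 2) := by gcongr
      _ = _ := by ring
  simpa using h2

lemma main [IsProbabilityMeasure μ] {p : ℕ} (hp : 3 ≤ p) (h : ∀ j : ℕ, 1 ≤ j → j < p →
    MeasurePreserving (fun x : UnitAddCircle => j • x) μ μ) (n : ℕ) {f : UnitAddCircle → ℝ}
    {K : NNReal} (hf : LipschitzWith K f) :
    |∫ x, f (n • x) ∂μ - (max 0 (co μ n).re * f 0 + (1 - max 0 (co μ n).re) * ∫ x, f x)| ≤
      10 * K / p := by
  have := prob_vol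
  have hp' : (3 : ℝ) ≤ p := by exact_mod_cast hp
  have hK : (0 : ℝ) ≤ K := K.coe_nonneg
  set a : ℝ := (co μ n).re with ha
  have ha1 : -1 / ((p : ℝ) - 1) ≤ a := re_lower (by omega) h n
  have ha2 : a ≤ 1 := by
    have h1 : ‖co μ n‖ ≤ 1 := by
      rw [co]
      refine (norm_integral_le_of_norm_le (integrable_const (1 : ℝ))
        (Filter.Eventually.of_forall fun x => (norm_f _ x).le)).trans ?_
      simp
    exact (Complex.re_le_norm _).trans h1
  have ha3 : -1 / 2 ≤ a := by
    refine le_trans ?_ ha1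
    rw [div_le_div_iff₀ (by norm_num) (by linarith)]
    linarith
  -- the imaginary part
  have him : |(co μ n).im| ≤ 3 * Real.pi / p := by
    refine (im_bound hp h n).trans ?_
    rw [← ha]
    have h2 := tan_le hp
    have h3 : 0 ≤ 2 * Real.pi / p := by positivity
    calc (1 - a) * Real.tan (Real.pi / p) ≤ (1 - a) * (2 * Real.pi / p) := by
          exact mul_le_mul_of_nonneg_left h2 (by linarith)
      _ ≤ 3 / 2 * (2 * Real.pi / p) := by
          exact mul_le_mul_of_nonneg_right (by linarith) h3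
      _ = _ := by ring
  set M : ℕ := (p + 1) / 2 with hM
  have hM1 : 1 ≤ M := by omega
  have hM2 : 2 * M - 1 ≤ p := by omega
  have hM3 : (p : ℝ) ≤ 2 * M := by
    have : p ≤ 2 * M := by omega
    exact_mod_cast this
  have hM' : (1 : ℝ) ≤ M := by exact_mod_cast hM1
  have hgc : Continuous (gg M f) := by
    unfold gg
    fun_prop
  have hfC : Continuous fun x : UnitAddCircle => (f x : ℂ) :=
    Complex.continuous_ofReal.comp hf.continuous
  -- split
  have hsplit : Lam μ n a (fun x => (f x : ℂ)) =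
      Lam μ n a (fun x => (f x : ℂ) - gg M f x) + Lam μ n a (gg M f) := by
    have i1 : Integrable (fun x : UnitAddCircle => (f (n • x) : ℂ)) μ :=
      integrable_contC (hfC.comp (continuous_nsmul n)) _
    have i2 : Integrable (fun x : UnitAddCircle => gg M f (n • x)) μ :=
      integrable_contC (hgc.comp (continuous_nsmul n)) _
    rw [Lam, Lam, Lam, integral_sub i1 i2, integral_sub (integrable_contC hfC _)
      (integrable_contC hgc _)]
    ring
  have herr : ∀ x, ‖(f x : ℂ) - gg M f x‖ ≤ 3 / 4 / M * K := approx hM1 hf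
  have h1 : ‖Lam μ n a (fun x => (f x : ℂ) - gg M f x)‖ ≤ 9 / 2 * K / p := by
    have e0 : (0 : ℝ) ≤ 3 / 4 / M * K := by positivity
    have e1 : ‖∫ x, ((f (n • x) : ℂ) - gg M f (n • x)) ∂μ‖ ≤ 3 / 4 / M * K := by
      refine (norm_integral_le_of_norm_le (integrable_const (3 / 4 / M * K : ℝ))
        (Filter.Eventually.of_forall fun x => herr _)).trans ?_
      simp
    have e2 : ‖∫ x : UnitAddCircle, ((f x : ℂ) - gg M f x)‖ ≤ 3 / 4 / M * K := by
      refine (norm_integral_le_of_norm_le (integrable_const (3 / 4 / M * K : ℝ))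
        (Filter.Eventually.of_forall fun x => herr _)).trans ?_
      simp
    have e3 := herr 0
    have e4 : ‖(a : ℂ)‖ = |a| := by rw [Complex.norm_real, Real.norm_eq_abs]
    have e5 : ‖(1 - (a : ℂ))‖ = 1 - a := by
      rw [← Complex.ofReal_one, ← Complex.ofReal_sub, Complex.norm_real, Real.norm_eq_abs,
        abs_of_nonneg (by linarith)]
    have e6 : |a| + (1 - a) ≤ 2 := by
      rcases le_total 0 a with h0 | h0
      · rw [abs_of_nonneg h0]; linarith
      · rw [abs_of_nonpos h0]; linarith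
    have e7 : ‖Lam μ n a (fun x => (f x : ℂ) - gg M f x)‖ ≤
        3 / 4 / M * K + |a| * (3 / 4 / M * K) + (1 - a) * (3 / 4 / M * K) := by
      rw [Lam]
      refine (norm_sub_le _ _).trans (add_le_add ((norm_sub_le _ _).trans (add_le_add e1 ?_)) ?_)
      · rw [norm_mul, e4]; gcongr
      · rw [norm_mul, e5]
        exact mul_le_mul_of_nonneg_left e2 (by linarith)
    refine e7.trans ?_
    calc 3 / 4 / M * K + |a| * (3 / 4 / M * K) + (1 - a) * (3 / 4 / M * K)
        = (1 + (|a| + (1 - a))) * (3 / 4 / M * K) := by ring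
      _ ≤ (1 + 2) * (3 / 4 / M * K) := by gcongr
      _ = 9 / 2 * K / (2 * M) := by field_simp; ring
      _ ≤ 9 / 2 * K / p := by gcongr
  have h2 : ‖Lam μ n a (gg M f)‖ ≤ 3 * Real.pi / 2 * K / p := by
    refine (norm_Lam_gg h n hM1 hM2 f).trans ?_
    have h3 := coeff_sum hf (p := p) (by omega)
    calc |(co μ n).im| * ∑ k ∈ TT p, ‖cf f k‖ ≤ 3 * Real.pi / p * (K / 2) := by
          exact mul_le_mul him h3 (sum_nonneg fun k _ => norm_nonneg _) (by positivity)
      _ = _ := by ring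
  have h3 : ‖Lam μ n a (fun x => (f x : ℂ))‖ ≤ 9 / 2 * K / p + 3 * Real.pi / 2 * K / p := by
    rw [hsplit]
    exact (norm_add_le _ _).trans (add_le_add h1 h2)
  have h4 : Lam μ n a (fun x => (f x : ℂ)) =
      ((∫ x, f (n • x) ∂μ - (a * f 0 + (1 - a) * ∫ x, f x) : ℝ) : ℂ) := by
    rw [Lam, integral_complex_ofReal, integral_complex_ofReal]
    push_cast; ring
  rw [h4, Complex.norm_real, Real.norm_eq_abs] at h3
  -- replace `a` by its positive part
  have h5 := f_zero_sub hf
  have h6 : max 0 a - a ≤ 1 / ((p : ℝ) - 1) ∧ 0 ≤ max 0 a - a := by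
    rcases le_total 0 a with h0 | h0
    · rw [max_eq_right h0, sub_self]
      exact ⟨by apply div_nonneg <;> linarith, le_rfl⟩
    · rw [max_eq_left h0]
      have : -1 / ((p : ℝ) - 1) = -(1 / ((p : ℝ) - 1)) := by ring
      rw [this] at ha1
      exact ⟨by linarith, by linarith⟩
  have h7 : 1 / ((p : ℝ) - 1) ≤ 3 / 2 / p := by
    rw [div_le_div_iff₀ (by linarith) (by linarith)]
    linarith
  have h8 : ∫ x, f (n • x) ∂μ - (max 0 a * f 0 + (1 - max 0 a) * ∫ x, f x) =
      (∫ x, f (n • x) ∂μ - (a * f 0 + (1 - a) * ∫ x, f x)) -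
        (max 0 a - a) * (f 0 - ∫ x, f x) := by ring
  rw [h8]
  have h9 : |(max 0 a - a) * (f 0 - ∫ x, f x)| ≤ 3 / 2 / p * (K / 2) := by
    rw [abs_mul, abs_of_nonneg h6.2]
    exact mul_le_mul (h6.1.trans h7) h5 (abs_nonneg _) (by positivity)
  refine (abs_sub _ _).trans ?_
  have hpi : Real.pi ≤ 3.15 := by linarith [Real.pi_lt_d2]
  have h10 : 9 / 2 * (K : ℝ) / p + 3 * Real.pi / 2 * K / p + 3 / 2 / p * (K / 2) =
      (9 / 2 + 3 * Real.pi / 2 + 3 / 4) * (K / p) := by ring
  have h11 : (9 / 2 + 3 * Real.pi / 2 + 3 / 4) * ((K : ℝ) / p) ≤ 10 * (K / p) := by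
    have : (0 : ℝ) ≤ K / p := by positivity
    gcongr
    linarith
  have h12 : 10 * (K : ℝ) / p = 10 * (K / p) := by ring
  rw [h12]
  linarith

end Pool.Agent.H310.MG
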