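import Pool.Agent.H310.MG.H

set_option autoImplicit false

open MeasureTheory Finset

namespace Pool.Agent.H310.MG

lemma norm_toCircle_upper (u : UnitAddCircle) :
    ‖((AddCircle.toCircle u : Circle) : ℂ) - 1‖ ≤ 2 * Real.pi * ‖u‖ := by
  obtain ⟨r, rfl⟩ : ∃ r : ℝ, (r : UnitAddCircle) = u := QuotientAddGroup.mk_surjective u
  rw [UnitAddCircle.norm_eq]
  have e : (r : UnitAddCircle) = ((r - round r : ℝ) : UnitAddCircle) := by
    rw [AddCircle.coe_sub]
    have : ((round r : ℝ) : UnitAddCircle) = 0 := by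
      rw [AddCircle.coe_eq_zero_iff]
      exact ⟨round r, by simp⟩
    rw [this, sub_zero]
  rw [e, AddCircle.toCircle_apply_mk]
  rw [Circle.coe_exp]
  have h := Real.norm_exp_I_mul_ofReal_sub_one_le (x := 2 * Real.pi / 1 * (r - round r))
  rw [mul_comm Complex.I] at h
  refine h.trans ?_
  rw [Real.norm_eq_abs, abs_mul, div_one, abs_of_pos (by positivity)]

lemma norm_fourier_sub (k : ℕ) (x y : UnitAddCircle) :
    ‖(fourier (k : ℤ) x : ℂ) - fourier (k : ℤ) y‖ ≤ 2 * Real.pi * k * ‖x - y‖ := by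
  have h1 : (fourier (k : ℤ) x : ℂ) - fourier (k : ℤ) y =
      fourier (k : ℤ) y * (((AddCircle.toCircle (k • (x - y)) : Circle) : ℂ) - 1) := by
    have : k • x = k • y + k • (x - y) := by rw [← nsmul_add]; congr 1; abel
    rw [fourier_apply, fourier_apply, natCast_zsmul, natCast_zsmul, this, AddCircle.toCircle_add]
    push_cast
    ring
  rw [h1, norm_mul, norm_f, one_mul]
  refine (norm_toCircle_upper _).trans ?_
  have : ‖k • (x - y)‖ ≤ k * ‖x - y‖ := by
    exact norm_nsmul_le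
  have hpi := Real.pi_pos
  calc 2 * Real.pi * ‖k • (x - y)‖ ≤ 2 * Real.pi * (k * ‖x - y‖) := by gcongr
    _ = _ := by ring

/-- The test functions `cos (2 π k x) / (2 π k)`. -/
noncomputable def tf (k : ℕ) (x : UnitAddCircle) : ℝ := (fourier (k : ℤ) x : ℂ).re / (2 * Real.pi * k)

lemma tf_lip {k : ℕ} (hk : 1 ≤ k) : LipschitzWith 1 (tf k) := by
  have hpi := Real.pi_pos
  have hk' : (1 : ℝ) ≤ k := by exact_mod_cast hk
  refine LipschitzWith.of_dist_le_mul fun x y => ?_
  rw [Real.dist_eq, tf, tf, ← sub_div, abs_div, abs_of_pos (by positivity : 0 < 2 * Real.pi * (k : ℝ)),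
    div_le_iff₀ (by positivity), ← Complex.sub_re]
  refine (Complex.abs_re_le_norm _).trans ((norm_fourier_sub k x y).trans (le_of_eq ?_))
  rw [dist_eq_norm]
  push_cast
  ring

lemma tf_zero {k : ℕ} : tf k 0 = 1 / (2 * Real.pi * k) := by
  simp [tf]

lemma re_int (ρ : Measure UnitAddCircle) [IsProbabilityMeasure ρ] (k : ℤ) :
    ∫ x, (fourier k x : ℂ).re ∂ρ = (co ρ k).re := by
  rw [co]
  have := integral_re (𝕜 := ℂ) (int_f (μ := ρ) k)
  simpa using this

lemma tf_int {ρ : Measure UnitAddCircle} [IsProbabilityMeasure ρ] (k : ℕ) :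
    ∫ x, tf k x ∂ρ = (co ρ k).re / (2 * Real.pi * k) := by
  simp only [tf]
  rw [integral_div, re_int]

lemma tf_vol {k : ℕ} (hk : 1 ≤ k) : ∫ x, tf k x = 0 := by
  have := prob_vol
  rw [tf_int, co, int_fourier, if_neg (by omega)]
  simp

lemma lower {p : ℕ} (hp : 3 ≤ p) {ν : Measure UnitAddCircle} [IsProbabilityMeasure ν]
    (h : ∀ j : ℕ, 1 ≤ j → j < p → MeasurePreserving (fun x : UnitAddCircle => j • x) ν ν)
    (hν : ∀ᵐ x ∂ν, p • x = 0 ∧ x ≠ 0) :
    (co ν 1).re = -1 / ((p : ℝ) - 1) ∧ ∀ t : ℝ, ∃ f : UnitAddCircle → ℝ, LipschitzWith 1 f ∧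
      1 / (4 * Real.pi * p) ≤ |∫ x, f x ∂ν - (t * f 0 + (1 - t) * ∫ x, f x)| := by
  have hp' : (3 : ℝ) ≤ p := by exact_mod_cast hp
  have hpi := Real.pi_pos
  have h1 : (co ν 1).re = -1 / ((p : ℝ) - 1) := by
    have := (re_eq_iff (by omega) h 1).2 (by simpa using hν)
    simpa using this
  refine ⟨h1, fun t => ?_⟩
  rcases le_or_gt (1 / 2) |1 - t| with ht | ht
  · refine ⟨tf p, tf_lip (by omega), ?_⟩
    have e1 : ∫ x, tf p x ∂ν = 1 / (2 * Real.pi * p) := by
      have : ∫ x, tf p x ∂ν = ∫ _, 1 / (2 * Real.pi * p) ∂ν := by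
        refine integral_congr_ae ?_
        filter_upwards [hν] with x hx
        rw [tf, fourier_apply, natCast_zsmul, hx.1]
        simp
      rw [this]; simp
    rw [e1, tf_vol (by omega), tf_zero]
    have e2 : 1 / (2 * Real.pi * p) - (t * (1 / (2 * Real.pi * p)) + (1 - t) * 0) =
        (1 - t) * (1 / (2 * Real.pi * p)) := by ring
    rw [e2, abs_mul, abs_of_pos (by positivity : 0 < 1 / (2 * Real.pi * (p : ℝ)))]
    calc 1 / (4 * Real.pi * (p : ℝ)) = 1 / 2 * (1 / (2 * Real.pi * p)) := by field_simp; norm_num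
      _ ≤ _ := by gcongr
  · refine ⟨tf 1, tf_lip le_rfl, ?_⟩
    rw [tf_int, tf_vol le_rfl, tf_zero]
    have h2 : (co ν ((1 : ℕ) : ℤ)).re = -1 / ((p : ℝ) - 1) := by simpa using h1
    rw [h2]
    have ht2 : 1 / 2 < t := by
      have := (abs_lt.1 ht).2
      linarith
    have e2 : -1 / ((p : ℝ) - 1) / (2 * Real.pi * ((1 : ℕ) : ℝ)) -
        (t * (1 / (2 * Real.pi * ((1 : ℕ) : ℝ))) + (1 - t) * 0) =
        -((1 / ((p : ℝ) - 1) + t) * (1 / (2 * Real.pi))) := by push_cast; ring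
    have h3 : 0 < 1 / ((p : ℝ) - 1) := by apply div_pos <;> linarith
    rw [e2, abs_neg, abs_of_pos (by positivity)]
    calc 1 / (4 * Real.pi * (p : ℝ)) ≤ 1 / (4 * Real.pi * 1) := by gcongr; linarith
      _ = 1 / 2 * (1 / (2 * Real.pi)) := by field_simp; norm_num
      _ ≤ _ := by gcongr; linarith

/-- The uniform measure on the nonzero points of order `p`. -/
noncomputable def nu (p : ℕ) [NeZero p] : Measure UnitAddCircle :=
  ((Fintype.card (ZMod p)ˣ : ℕ) : ENNReal)⁻¹ •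
    ∑ u : (ZMod p)ˣ, Measure.dirac (ZMod.toAddCircle (u : ZMod p))

lemma nu_prob (p : ℕ) [NeZero p] : IsProbabilityMeasure (nu p) := by
  refine ⟨?_⟩
  rw [nu, Measure.smul_apply, Measure.finsetSum_apply]
  simp only [measure_univ, sum_const, card_univ, smul_eq_mul, nsmul_eq_mul, mul_one]
  refine ENNReal.inv_mul_cancel ?_ (by simp)
  exact_mod_cast Fintype.card_ne_zero

lemma nu_inv (p : ℕ) [NeZero p] (q : ℕ) (hq : Nat.Coprime q p) :
    MeasurePreserving (fun x : UnitAddCircle => q • x) (nu p) (nu p) := by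
  have hm : Measurable (fun x : UnitAddCircle => q • x) := (continuous_nsmul q).measurable
  refine ⟨hm, ?_⟩
  have hmap : ∀ s : Finset (ZMod p)ˣ, Measure.map (fun x : UnitAddCircle => q • x)
      (∑ u ∈ s, Measure.dirac (ZMod.toAddCircle (u : ZMod p))) =
      ∑ u ∈ s, Measure.dirac (q • ZMod.toAddCircle (u : ZMod p)) := by
    intro s
    induction s using Finset.induction_on with
    | empty => simp
    | insert a s ha ih =>
      rw [sum_insert ha, sum_insert ha, Measure.map_add _ _ hm, ih, Measure.map_dirac' hm]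
  rw [nu, Measure.map_smul, hmap]
  congr 1
  rw [← Equiv.sum_comp (Equiv.mulLeft (ZMod.unitOfCoprime q hq))
    (fun u : (ZMod p)ˣ => Measure.dirac (ZMod.toAddCircle (u : ZMod p)))]
  refine sum_congr rfl fun u _ => ?_
  congr 1
  rw [Equiv.coe_mulLeft, Units.val_mul, ZMod.coe_unitOfCoprime, ← nsmul_eq_mul, map_nsmul]

lemma nu_ae {p : ℕ} [NeZero p] (hp : 2 ≤ p) : ∀ᵐ x ∂(nu p), p • x = 0 ∧ x ≠ 0 := by
  have : Fact (1 < p) := ⟨by omega⟩
  rw [nu]
  refine Measure.ae_smul_measure ?_ _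
  rw [ae_iff, Measure.finsetSum_apply]
  refine sum_eq_zero fun u _ => ?_
  rw [Measure.dirac_apply]
  simp only [Set.indicator_apply_eq_zero]
  intro hx
  exfalso
  apply hx
  constructor
  · rw [← map_nsmul, nsmul_eq_mul]; simp
  · intro h0
    rw [← map_zero (ZMod.toAddCircle (N := p))] at h0
    exact u.ne_zero (ZMod.toAddCircle_injective p h0)

end Pool.Agent.H310.MG
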